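import Pool.Agent.W823.QT.Stm

/-!
# Project QT (helper823), part REN: the renewal identity (helper347)
-/

set_option autoImplicit false

namespace Pool.Agent.W347.QTREN

open MeasureTheory ProbabilityTheory Filter Topology Pool.Agent.W845.Traps Pool.Agent.W823.QT
open scoped ENNReal NNReal

/-- exactly one vertex is the first uncrossed one -/
theorem one_eq (n : ℕ) (hn : 1 ≤ n) (S : Finset (ℕ × ℕ)) (hS : S ⊆ arcs n) :
    ∑ l ∈ Finset.Icc 1 n, ind (Irr l S ∧ ∀ e ∈ S, ¬ (e.1 < l ∧ l < e.2)) = 1 := by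
  classical
  have hex : ∃ l, 1 ≤ l ∧ ∀ e ∈ S, ¬ (e.1 < l ∧ l < e.2) := by
    refine ⟨n, hn, fun e he h => ?_⟩
    have h1 := hS he
    unfold arcs at h1
    rw [Finset.mem_filter, Finset.mem_product, Finset.mem_range, Finset.mem_range] at h1
    omega
  set l0 := Nat.find hex with hl0
  obtain ⟨h1, h2⟩ := Nat.find_spec hex
  have hle : l0 ≤ n := by
    apply Nat.find_min' hex
    refine ⟨hn, fun e he h => ?_⟩
    have h1 := hS he
    unfold arcs at h1
    rw [Finset.mem_filter, Finset.mem_product, Finset.mem_range, Finset.mem_range] at h1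
    omega
  have hirr : Irr l0 S := by
    intro v hv0 hv
    have := Nat.find_min hex hv
    push Not at this
    obtain ⟨e, he, h3⟩ := this hv0
    exact ⟨e, he, h3⟩
  rw [Finset.sum_eq_single_of_mem l0 (Finset.mem_Icc.2 ⟨h1, hle⟩)]
  · unfold ind
    rw [if_pos ⟨hirr, h2⟩]
  · intro l hl hne
    unfold ind
    rw [if_neg]
    rintro ⟨h3, h4⟩
    rw [Finset.mem_Icc] at hl
    have h5 : l0 ≤ l := Nat.find_min' hex ⟨hl.1, h4⟩
    obtain ⟨e, he, h6⟩ := h3 l0 (by omega) (by omega)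
    exact h2 e he h6

theorem main (h1 : RENT_T) : REN_T := by
  intro w n hn
  rw [Finset.prod_one_add]
  have e1 : ∀ l ∈ Finset.Icc 1 n, kk w l * ∏ e ∈ arcs (n - l), (1 + w (e.1 + l, e.2 + l)) =
      ∑ S ∈ (arcs n).powerset, (∏ e ∈ S, w e) *
        ind (Irr l S ∧ ∀ e ∈ S, ¬ (e.1 < l ∧ l < e.2)) := by
    intro l hl
    rw [Finset.mem_Icc] at hl
    rw [← h1 w n l hl.1 hl.2]
    rfl
  rw [Finset.sum_congr rfl e1, Finset.sum_comm]
  refine Finset.sum_congr rfl fun S hS => ?_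
  rw [← Finset.mul_sum, one_eq n hn S (Finset.mem_powerset.1 hS), mul_one]

end Pool.Agent.W347.QTREN
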