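import Pool.Agent.W92.DPH.Basic
import Pool.Agent.W462.DPL.C

/-!
DPH-UP (helper347): upper bound for the dimension of the double points of the limits of the
exploration path in the half-plane.
-/

set_option autoImplicit false

namespace Pool.Agent.W347.DPHUp

open H974 H12S Finset H389NS H984P MeasureTheory Filter Topology Pool.Agent.W92.DP
open Pool.Agent.W92.DPH
open Pool.Agent.W462.DPL (Ev Ev_open near_box box_near sizes ctr pl_close' idx_le one_scale okh)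

/-- the upper half-plane -/
def HPl : Set ℂ := {w : ℂ | 0 < w.im}

theorem pos_place (δ : ℝ) (σ : St) :
    H984N.pos δ σ = (δ : ℂ) * H984H.place σ + (δ : ℂ) * Complex.I := by
  obtain ⟨v, q⟩ := σ
  cases q <;> apply Complex.ext <;> simp [H984N.pos, H984H.place] <;> ring

theorem dist_pos (δ : ℝ) (σ : St) (z : ℂ) :
    dist (H984N.pos δ σ) (z + (δ : ℂ) * Complex.I) = dist ((δ : ℂ) * H984H.place σ) z := by
  rw [pos_place, dist_add_right]

/-- the lattice box is above the real axis -/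
theorem up_box {z : ℂ} {d δ : ℝ} (hδ : 0 < δ) (hd : 64 * δ ≤ d)
    (hball : Metric.ball z d ⊆ HPl) :
    0 < (ctr δ (z + (δ : ℂ) * Complex.I)).2 - (⌊d / (8 * δ)⌋₊ : ℕ) := by
  have hd0 : 0 < d := by linarith
  have w3 : 0 < z.im - d / 2 := by
    have h : z + ⟨0, -(d / 2)⟩ ∈ HPl := by
      apply hball
      rw [Metric.mem_ball, Complex.dist_eq]
      have h := Complex.norm_le_abs_re_add_abs_im (⟨0, -(d / 2)⟩ : ℂ)
      have h2 : |(⟨0, -(d / 2)⟩ : ℂ).im| = d / 2 := by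
        show |-(d / 2)| = d / 2
        rw [abs_neg, abs_of_pos (by linarith)]
      have h3 : |(⟨0, -(d / 2)⟩ : ℂ).re| = 0 := by
        show |(0 : ℝ)| = 0
        simp
      rw [h2, h3] at h
      have e : z + ⟨0, -(d / 2)⟩ - z = (⟨0, -(d / 2)⟩ : ℂ) := by ring
      rw [e]
      linarith
    have h' : 0 < (z + ⟨0, -(d / 2)⟩ : ℂ).im := h
    rw [Complex.add_im] at h'
    have e : (⟨0, -(d / 2)⟩ : ℂ).im = -(d / 2) := rfl
    rw [e] at h'
    linarith
  have b2 := Int.lt_floor_add_one (z.im / δ + 1)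
  have hk : (⌊d / (8 * δ)⌋₊ : ℝ) ≤ d / (8 * δ) := Nat.floor_le (by positivity)
  set k : ℕ := ⌊d / (8 * δ)⌋₊ with hkd
  have e0 : d / (8 * δ) = (d / δ) / 8 := by
    field_simp
  rw [e0] at hk
  have hdδ : 64 ≤ d / δ := by
    rw [le_div_iff₀ hδ]
    exact hd
  have v3 : 0 < z.im / δ - (d / δ) / 2 := by
    have h := div_lt_div_of_pos_right w3 hδ
    have e : (z.im - d / 2) / δ = z.im / δ - (d / δ) / 2 := by ring
    rw [e, zero_div] at h
    exact h
  have e1 : (z + (δ : ℂ) * Complex.I).im / δ = z.im / δ + 1 := by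
    simp
    field_simp
  show 0 < ⌊(z + (δ : ℂ) * Complex.I).im / δ⌋ - 1 - (k : ℕ)
  rw [e1]
  have : (0 : ℝ) < ((⌊z.im / δ + 1⌋ : ℤ) : ℝ) - 1 - (k : ℝ) := by linarith
  exact_mod_cast this

/-- the deterministic part -/
theorem det (hU : St_U) {z : ℂ} {r d δ : ℝ} (hδ : 0 < δ) (hδr : δ ≤ r)
    (hd : 256 * r ≤ d) (hball : Metric.ball z d ⊆ HPl) (n : ℕ) (ω : H984H.Conf) {ρ : ℤ}
    (hρ : (n : ℤ) < ρ)
    (b1 : -ρ < (ctr δ (z + (δ : ℂ) * Complex.I)).1 - (⌊d / (8 * δ)⌋₊ : ℕ))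
    (b2 : (ctr δ (z + (δ : ℂ) * Complex.I)).1 + (⌊d / (8 * δ)⌋₊ : ℕ) < ρ)
    (b4 : (ctr δ (z + (δ : ℂ) * Complex.I)).2 + (⌊d / (8 * δ)⌋₊ : ℕ) < ρ)
    (hE : (H984N.pl n (fun k => (δ : ℂ) * H984H.gam ω k), (0 : ℝ)) ∈ Ev z r (d / 2)) :
    A4a (ctr δ (z + (δ : ℂ) * Complex.I)) (⌈r / δ⌉₊ + 3 + 2) (⌊d / (8 * δ)⌋₊ - 2)
        ↑(H984H.cut ω ρ) ∨
      A4d (ctr δ (z + (δ : ℂ) * Complex.I)) (⌈r / δ⌉₊ + 3 + 2) (⌊d / (8 * δ)⌋₊ - 2)
        ↑(H984H.cut ω ρ) := by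
  obtain ⟨s, u, t, ⟨hsu, hut⟩, h1, h2, h3⟩ := hE
  have hr : 0 < r := hδ.trans_le hδr
  have hd0 : 0 < d := by linarith
  have b3 := up_box hδ (by linarith) hball
  obtain ⟨z', hz'⟩ : ∃ z' : ℂ, z' = z + (δ : ℂ) * Complex.I := ⟨_, rfl⟩
  rw [← hz'] at b1 b2 b3 b4 ⊢
  simp only at h1 h2 h3
  have hst : ∀ k < n, dist ((δ : ℂ) * H984H.gam ω k) ((δ : ℂ) * H984H.gam ω (k + 1)) ≤ δ / 2 := by
    intro k _
    have h := H984H.gam_step ω k
    rw [dist_eq_norm, ← mul_sub, norm_mul, Complex.norm_real, Real.norm_eq_abs, abs_of_pos hδ,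
      ← dist_eq_norm]
    nlinarith
  rcases Nat.eq_zero_or_pos n with h0 | hNpos
  · exfalso
    rw [h0, H984N.pl_apply'] at h1 h3
    simp only [Finset.range_zero, Finset.sum_empty, add_zero] at h1 h3
    linarith
  obtain ⟨i, hiN, ⟨i1, i2⟩, hi⟩ := pl_close' hNpos hst s
  obtain ⟨j, hjN, ⟨j1, j2⟩, hj⟩ := pl_close' hNpos hst u
  obtain ⟨l, hlN, ⟨l1, l2⟩, hl⟩ := pl_close' hNpos hst t
  set f := H984N.pl n (fun k => (δ : ℂ) * H984H.gam ω k) with hf
  have hsu' : s ≠ u := by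
    intro h
    rw [h] at h1
    linarith
  have hut' : u ≠ t := by
    intro h
    rw [← h] at h2
    linarith
  have hij : i ≤ j := idx_le hNpos hsu hsu' i1 j2
  have hjl : j ≤ l := idx_le hNpos hut hut' j1 l2
  -- positions
  have hdp : ∀ k : ℕ, dist (H984N.pos δ (H984H.path ω k)) z' = dist ((δ : ℂ) * H984H.gam ω k) z := by
    intro k
    rw [hz', dist_pos]
    rfl
  have pi : dist (H984N.pos δ (H984H.path ω i)) z' ≤ r + δ / 2 := by
    rw [hdp]
    have := dist_triangle_left ((δ : ℂ) * H984H.gam ω i) z (f s)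
    linarith
  have plz : dist (H984N.pos δ (H984H.path ω l)) z' ≤ r + δ / 2 := by
    rw [hdp]
    have := dist_triangle_left ((δ : ℂ) * H984H.gam ω l) z (f t)
    linarith
  have pj : d / 2 - δ / 2 < dist (H984N.pos δ (H984H.path ω j)) z' := by
    rw [hdp]
    have := dist_triangle (f u) ((δ : ℂ) * H984H.gam ω j) z
    linarith
  have hij' : i < j := by
    rcases hij.lt_or_eq with h | h
    · exact h
    · exfalso
      rw [h] at pi
      linarith
  have hjl' : j < l := by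
    rcases hjl.lt_or_eq with h | h
    · exact h
    · exfalso
      rw [← h] at plz
      linarith
  obtain ⟨s1, _, _, _⟩ := sizes hδ hδr hd
  -- the path in the box
  have hρ1 : (1 : ℤ) ≤ ρ := by omega
  have hcp : ∀ k : ℕ, k ≤ n → k + 1 ≤ (H984H.bx ρ).len (H984H.cut ω ρ) ∧
      (H984H.bx ρ).walk (H984H.cut ω ρ) ((H984H.bx ρ).len (H984H.cut ω ρ) - 1 - k) =
        H984H.path ω k := by
    intro k hk
    apply H984H.couple hρ1 ω
    intro m hm
    have h1 := H984H.path_sd ω (Nat.zero_le m)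
    have h2 : H984H.sd (H984H.path ω m).1 (0, 0) = H984H.sd (H984H.path ω 0).1 (H984H.path ω m).1 := by
      have : (H984H.path ω 0).1 = (0, 0) := rfl
      rw [this]
      simp only [H984H.sd]
      rw [abs_sub_comm, abs_sub_comm (H984H.path ω m).1.2]
    rw [h2]
    omega
  obtain ⟨ci1, ci2⟩ := hcp i (by omega)
  obtain ⟨cj1, cj2⟩ := hcp j (by omega)
  obtain ⟨cl1, cl2⟩ := hcp l (by omega)
  set Ln := (H984H.bx ρ).len (H984H.cut ω ρ) with hLn
  have key := hU (toN (H984H.bx ρ)) (cz (H984H.cut ω ρ)) (ok_toN (H984H.bx_ok hρ1))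
    (cz_edges (H984H.Couple_cut_sub ω ρ)) (ctr δ z') (⌈r / δ⌉₊ + 3) ⌊d / (8 * δ)⌋₊ s1 b1 b2 b3 b4
    (Ln - 1 - l) (Ln - 1 - j) (Ln - 1 - i) (by omega) (by omega) (by rw [len_eq]; omega)
    (by rw [walk_eq, cl2]; exact near_box hδ plz) (by rw [walk_eq, ci2]; exact near_box hδ pi)
    (by
      rw [walk_eq, cj2]
      intro hin
      have h5 := box_near hδ hin
      have hk : (⌊d / (8 * δ)⌋₊ : ℝ) ≤ d / (8 * δ) := Nat.floor_le (by positivity)
      have h6 : 2 * δ * (⌊d / (8 * δ)⌋₊ : ℝ) ≤ d / 4 := by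
        calc 2 * δ * (⌊d / (8 * δ)⌋₊ : ℝ) ≤ 2 * δ * (d / (8 * δ)) :=
              mul_le_mul_of_nonneg_left hk (by positivity)
          _ = d / 4 := by
              field_simp
              norm_num
      linarith)
  rw [A4a_cz (by omega), A4d_cz (by omega)] at key
  exact key

/-- probability bound -/
theorem prob_le (hU : St_U) (hA : St_Aa) (hD : St_Ad) :
    ∃ C : ℝ, 0 < C ∧ ∀ (z : ℂ) (r d : ℝ) (n : ℕ), 0 < r → r ≤ d →
      Metric.ball z d ⊆ HPl → 1 ≤ n → (n : ℝ) ^ (-(4/7) : ℝ) ≤ r →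
        H984H.perc.real {ω | (H984H.curve n ω, (0 : ℝ)) ∈ Ev z r (d / 2)} ≤
          C * (r / d) ^ (5/4 : ℝ) := by
  obtain ⟨Ca, hCa, hA'⟩ := hA
  obtain ⟨Cd, hCd, hD'⟩ := hD
  refine ⟨(Ca + Cd + 1) * 256 ^ (5/4 : ℝ), by positivity, ?_⟩
  intro z r d n hr hrd hball hn hnr
  have hd0 : 0 < d := hr.trans_le hrd
  have hn0 : (0 : ℝ) < n := by exact_mod_cast hn
  obtain ⟨δ, hδd⟩ : ∃ δ : ℝ, δ = (n : ℝ) ^ (-(4/7) : ℝ) := ⟨_, rfl⟩
  have hδ : 0 < δ := by rw [hδd]; exact Real.rpow_pos_of_pos hn0 _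
  have hδr : δ ≤ r := by rw [hδd]; exact hnr
  have hq : 0 < r / d := by positivity
  have hRHS : (Ca + Cd + 1) * 256 ^ (5/4 : ℝ) * (r / d) ^ (5/4 : ℝ) =
      (Ca + Cd + 1) * (256 * (r / d)) ^ (5/4 : ℝ) := by
    rw [Real.mul_rpow (by norm_num) hq.le]
    ring
  rw [hRHS]
  by_cases h256 : 256 * r ≤ d
  · obtain ⟨s1, s2, s3, s4⟩ := sizes hδ hδr h256
    have b3 := up_box hδ (by linarith) hball
    set c := ctr δ (z + (δ : ℂ) * Complex.I) with hc
    set k : ℕ := ⌊d / (8 * δ)⌋₊ with hk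
    obtain ⟨ρ, hρ⟩ : ∃ ρ : ℤ, ρ = n + |c.1| + |c.2| + k + 1 := ⟨_, rfl⟩
    have a1 := neg_abs_le c.1
    have a2 := le_abs_self c.1
    have a3 := le_abs_self c.2
    have a4 := abs_nonneg c.1
    have a5 := abs_nonneg c.2
    have b1 : -ρ < c.1 - (k : ℕ) := by omega
    have b2 : c.1 + (k : ℕ) < ρ := by omega
    have b4 : c.2 + (k : ℕ) < ρ := by omega
    have hsub : blk c k ⊆ (H984H.bx ρ).edges :=
      RE_subset b1.le b2.le b3.le b4.le
    have hsub1 : ∀ k' : ℕ, k' ≤ k → blk c k' ⊆ (H984H.bx ρ).edges := by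
      intro k' hk'
      refine (RE_subset ?_ ?_ ?_ ?_).trans hsub <;> omega
    have h1 := hA' c (⌈r / δ⌉₊ + 3 + 2) (k - 2) (by omega) s2
      (H984H.bx ρ).edges (hsub1 _ (by omega))
    have h2 := hD' c (⌈r / δ⌉₊ + 3 + 2) (k - 2) (by omega) s2
      (H984H.bx ρ).edges (hsub1 _ (by omega))
    have hmono : H984H.perc.real {ω | (H984H.curve n ω, (0 : ℝ)) ∈ Ev z r (d / 2)} ≤
        PQ (1/2) (H984H.bx ρ).edges (fun F =>
          A4a c (⌈r / δ⌉₊ + 3 + 2) (k - 2) ↑F ∨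
          A4d c (⌈r / δ⌉₊ + 3 + 2) (k - 2) ↑F) := by
      have e := H984H.perc_cut ρ (fun F => A4a c (⌈r / δ⌉₊ + 3 + 2) (k - 2) ↑F ∨
          A4d c (⌈r / δ⌉₊ + 3 + 2) (k - 2) ↑F)
      refine le_trans ?_ (le_of_eq e)
      refine measureReal_mono ?_ (measure_ne_top _ _)
      intro ω hω
      refine det hU hδ hδr h256 hball n ω (ρ := ρ) (by omega) b1 b2 b4 ?_
      rw [hδd]
      exact hω
    have hor := Pr_or_le okh (H984H.bx ρ).edges
      (fun F => A4a c (⌈r / δ⌉₊ + 3 + 2) (k - 2) ↑F)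
      (fun F => A4d c (⌈r / δ⌉₊ + 3 + 2) (k - 2) ↑F)
    have hpow : (((⌈r / δ⌉₊ + 3 + 2 : ℕ) : ℝ) / ((k - 2 : ℕ) : ℝ)) ^ (5/4 : ℝ) ≤
        (256 * (r / d)) ^ (5/4 : ℝ) :=
      Real.rpow_le_rpow (by positivity) s4 (by norm_num)
    have hx0 : 0 ≤ (256 * (r / d)) ^ (5/4 : ℝ) := by positivity
    have h3 := mul_le_mul_of_nonneg_left hpow hCa.le
    have h4 := mul_le_mul_of_nonneg_left hpow hCd.le
    have h5 := hmono.trans (hor.trans (add_le_add (h1.trans h3) (h2.trans h4)))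
    refine h5.trans ?_
    nlinarith
  · push Not at h256
    have h1 : H984H.perc.real {ω | (H984H.curve n ω, (0 : ℝ)) ∈ Ev z r (d / 2)} ≤ 1 :=
      measureReal_le_one
    refine h1.trans ?_
    have h2 : 1 ≤ 256 * (r / d) := by
      rw [← mul_div_assoc, le_div_iff₀ hd0]
      linarith
    have h3 : 1 ≤ (256 * (r / d)) ^ (5/4 : ℝ) := Real.one_le_rpow h2 (by norm_num)
    nlinarith

/-- a bounded part of the half-plane -/
def DB (M : ℕ) : Set ℂ := {z : ℂ | |z.re| < M ∧ |z.im| < M ∧ 0 < z.im}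

theorem DB_open (M : ℕ) : IsOpen (DB M) := by
  have h : DB M = {z : ℂ | |z.re| < M} ∩ {z : ℂ | |z.im| < M} ∩ {z : ℂ | 0 < z.im} := by
    ext z
    unfold DB
    simp only [Set.mem_inter_iff, Set.mem_ofPred_eq]
    tauto
  rw [h]
  exact ((isOpen_lt (continuous_abs.comp Complex.continuous_re) continuous_const).inter
    (isOpen_lt (continuous_abs.comp Complex.continuous_im) continuous_const)).inter
    (isOpen_lt continuous_const Complex.continuous_im)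

/-- the embedding -/
def emb (f : C(unitInterval, ℂ)) : H984N.X := (f, 0)

theorem emb_cont : Continuous emb := continuous_id.prodMk continuous_const

theorem emb_meas : Measurable emb := measurable_id.prodMk measurable_const

/-- DPH-UP -/
theorem limUH : St_limUH := by
  intro hU hA hD φ hφ μ hμ η hη
  obtain ⟨C, hC, hP⟩ := prob_le hU hA hD
  set dn : ℕ → ℝ := fun n => min η (1 / ((n : ℝ) + 1)) with hdn
  have hdn0 : ∀ n, 0 < dn n := fun n => lt_min hη (by positivity)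
  have hmap : Tendsto (fun i => (H984H.lawH (φ i)).map emb_meas.aemeasurable) atTop
      (𝓝 (μ.map emb_meas.aemeasurable)) :=
    ProbabilityMeasure.tendsto_map_of_tendsto_of_continuous _ _ hμ emb_cont
  have hδ0 : Tendsto (fun i => ((φ i : ℕ) : ℝ) ^ (-(4/7) : ℝ)) atTop (𝓝 0) :=
    (tendsto_rpow_neg_atTop (by norm_num : (0 : ℝ) < 4/7)).comp (tendsto_natCast_atTop_atTop.comp hφ)
  have h1 : ∀ M n j : ℕ, ∀ᵐ p ∂((μ.map emb_meas.aemeasurable : ProbabilityMeasure H984N.X) :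
      Measure H984N.X), dimH (DPt η p.1 ∩ H934F.t10_A (DB M) (dn n)) ≤
        ENNReal.ofReal (3 / 4 + 1 / ((j : ℝ) + 1)) := by
    intro M n j
    have hj : 0 < 1 / ((j : ℝ) + 1) := by positivity
    refine one_scale (M := M) (fun z hz => ⟨hz.1, hz.2.1⟩) hC (hdn0 n) (min_le_left _ _) hmap ?_
      (by linarith)
    intro z r hr hrd hb
    have hev : ∀ᶠ i in atTop, ((φ i : ℕ) : ℝ) ^ (-(4/7) : ℝ) < r := hδ0.eventually_lt_const hr
    filter_upwards [hev, hφ.eventually_ge_atTop 1] with i hi hi1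
    have hm : MeasurableSet (Ev z r (dn n / 2)) := (Ev_open z r (dn n / 2)).measurableSet
    rw [ProbabilityMeasure.toMeasure_map, Measure.map_apply emb_meas hm,
      H984H.lawH_apply _ (emb_meas hm)]
    apply ENNReal.ofReal_le_ofReal
    exact hP z r (dn n) (φ i) hr hrd (hb.trans (fun w hw => hw.2.2)) hi1 hi.le
  have h2 : ∀ᵐ f ∂(μ : Measure C(unitInterval, ℂ)), ∀ M n j : ℕ,
      dimH (DPt η f ∩ H934F.t10_A (DB M) (dn n)) ≤
        ENNReal.ofReal (3 / 4 + 1 / ((j : ℝ) + 1)) := by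
    rw [ae_all_iff]
    intro M
    rw [ae_all_iff]
    intro n
    rw [ae_all_iff]
    intro j
    have h3 := h1 M n j
    rw [ProbabilityMeasure.toMeasure_map] at h3
    exact ae_of_ae_map emb_meas.aemeasurable h3
  filter_upwards [h2] with f hp
  have hsub : DPt η f ∩ {z : ℂ | 0 < z.im} ⊆
      ⋃ M : ℕ, ⋃ n : ℕ, DPt η f ∩ H934F.t10_A (DB M) (dn n) := by
    rintro z ⟨hzK, hzD⟩
    have hz0 : 0 < z.im := hzD
    obtain ⟨M, hM⟩ := exists_nat_gt (max |z.re| |z.im|)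
    have hzM : z ∈ DB M := ⟨(le_max_left _ _).trans_lt hM, (le_max_right _ _).trans_lt hM, hz0⟩
    obtain ⟨ε, hε, hb⟩ := Metric.isOpen_iff.mp (DB_open M) z hzM
    obtain ⟨n, hn⟩ := exists_nat_one_div_lt hε
    exact Set.mem_iUnion.mpr ⟨M, Set.mem_iUnion.mpr ⟨n, hzK,
      (Metric.ball_subset_ball ((min_le_right _ _).trans hn.le)).trans hb⟩⟩
  refine (dimH_mono hsub).trans ?_
  rw [dimH_iUnion]
  refine iSup_le fun M => ?_
  rw [dimH_iUnion]
  refine iSup_le fun n => ?_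
  have hlim : Tendsto (fun j : ℕ => ENNReal.ofReal (3 / 4 + 1 / ((j : ℝ) + 1))) atTop
      (𝓝 (ENNReal.ofReal (3 / 4 + 0))) :=
    ENNReal.tendsto_ofReal (tendsto_const_nhds.add tendsto_one_div_add_atTop_nhds_zero_nat)
  have h74 : ENNReal.ofReal (3 / 4 + 0) = 3 / 4 := by
    rw [add_zero, ENNReal.ofReal_div_of_pos (by norm_num)]
    norm_num
  rw [h74] at hlim
  exact ge_of_tendsto' hlim (fun j => hp M n j)

end Pool.Agent.W347.DPHUp
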