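import Pool.Agent.W982.TA.Stm2

/-!
# Min-max area triangulations: the cells of a component have the same sign (helper347)
-/

set_option autoImplicit false

namespace Pool.Agent.W982.TA

theorem s12_mem {M : Finset Pt} {o : Pt} {P : List ℕ} (hP : HasP P o M) {p : Pt}
    (h : missP P p = true) : (o.1 + p.1, o.2 + p.2) ∈ M := by
  have h' := h
  unfold missP at h'
  simp only [Bool.and_eq_true, decide_eq_true_eq] at h'
  obtain ⟨⟨h1, h2⟩, h3⟩ := h'
  obtain ⟨x, hx⟩ := Int.eq_ofNat_of_zero_le h1
  obtain ⟨y, hy⟩ := Int.eq_ofNat_of_zero_le h2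
  have hp : p = ((x : ℤ), (y : ℤ)) := Prod.ext hx hy
  have := hP x y (by rw [← hp]; exact h)
  rw [hp]
  exact this

/-- the translated neighbours of a blocky cell -/
theorem s12_blocky {M : Finset Pt} {o : Pt} {P : List ℕ} (hP : HasP P o M) {x y : ℕ}
    (h : blocky P ((x : ℤ), (y : ℤ)) = true) : (o.1 + x, o.2 + y) ∈ M ∧
    ((o.1 + x + 1, o.2 + y) ∈ M ∨ (o.1 + x - 1, o.2 + y) ∈ M) ∧
    ((o.1 + x, o.2 + y + 1) ∈ M ∨ (o.1 + x, o.2 + y - 1) ∈ M) := by
  unfold blocky at h
  simp only [Bool.and_eq_true, Bool.or_eq_true] at h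
  obtain ⟨⟨h1, h2⟩, h3⟩ := h
  refine ⟨s12_mem hP h1, ?_, ?_⟩
  · rcases h2 with h2 | h2
    · left
      have := s12_mem hP h2
      rwa [← add_assoc] at this
    · right
      have := s12_mem hP h2
      rwa [← add_sub_assoc] at this
  · rcases h3 with h3 | h3
    · left
      have := s12_mem hP h3
      rwa [← add_assoc] at this
    · right
      have := s12_mem hP h3
      rwa [← add_sub_assoc] at this

theorem s12_ne {X Y : ℤ} {M : Finset Pt} {e : Pt → Pt} (hM : Medial X Y M e) {p : Pt} (hp : p ∈ M)
    (h1 : (p.1 + 1, p.2) ∈ M ∨ (p.1 - 1, p.2) ∈ M)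
    (h2 : (p.1, p.2 + 1) ∈ M ∨ (p.1, p.2 - 1) ∈ M) : sg e p ≠ 0 := by
  have hg := hM.prim p hp
  have ha := (Finset.mem_sdiff.1 (hM.add_mem p hp)).2
  have hb := (Finset.mem_sdiff.1 (hM.sub_mem p hp)).2
  have ha' : (p.1 + (e p).1, p.2 + (e p).2) ∉ M := ha
  have hb' : (p.1 - (e p).1, p.2 - (e p).2) ∉ M := hb
  unfold sg
  intro h0
  rcases mul_eq_zero.1 h0 with h | h
  · rw [h, Int.gcd_zero_left] at hg
    rw [h, add_zero] at ha'
    rw [h, sub_zero] at hb'
    rcases Int.natAbs_eq_iff.1 hg with h3 | h3
    · rw [h3] at ha' hb'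
      rcases h2 with h2 | h2
      · exact ha' (by simpa using h2)
      · exact hb' (by simpa using h2)
    · rw [h3] at ha' hb'
      rcases h2 with h2 | h2
      · exact hb' (by simpa using h2)
      · exact ha' (by simpa [sub_eq_add_neg] using h2)
  · rw [h, Int.gcd_zero_right] at hg
    rw [h, add_zero] at ha'
    rw [h, sub_zero] at hb'
    rcases Int.natAbs_eq_iff.1 hg with h3 | h3
    · rw [h3] at ha' hb'
      rcases h1 with h1 | h1
      · exact ha' (by simpa using h1)
      · exact hb' (by simpa using h1)
    · rw [h3] at ha' hb'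
      rcases h1 with h1 | h1
      · exact hb' (by simpa using h1)
      · exact ha' (by simpa [sub_eq_add_neg] using h1)

theorem s12 (h11 : TaskS11) : TaskS12 := by
  intro X Y M e o P l hM hP
  induction l with
  | nil => exact fun _ => ⟨true, fun q hq => by simp at hq⟩
  | cons p l ih =>
    intro hc
    cases l with
    | nil =>
      have hb : blocky P ((p.1 : ℤ), (p.2 : ℤ)) = true := hc
      obtain ⟨h1, h2, h3⟩ := s12_blocky hP hb
      have hne := s12_ne hM h1 h2 h3
      rcases lt_or_gt_of_ne hne with h | h
      · refine ⟨false, fun q hq => ?_⟩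
        rw [List.mem_singleton] at hq
        subst hq
        simpa using h
      · refine ⟨true, fun q hq => ?_⟩
        rw [List.mem_singleton] at hq
        subst hq
        simpa using h
    | cons q l =>
      unfold compOK at hc
      simp only [Bool.and_eq_true] at hc
      obtain ⟨⟨hb, hany⟩, hc'⟩ := hc
      obtain ⟨b, hb'⟩ := ih hc'
      obtain ⟨r, hr, hadj⟩ := List.any_eq_true.1 hany
      -- `r` is blocky
      have hrb : ∀ l' : List (ℕ × ℕ), compOK P l' = true → ∀ s ∈ l',
          blocky P ((s.1 : ℤ), (s.2 : ℤ)) = true := by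
        intro l'
        induction l' with
        | nil => intro _ s hs; simp at hs
        | cons a l' ih' =>
          intro h s hs
          cases l' with
          | nil =>
            rw [List.mem_singleton] at hs
            subst hs
            exact h
          | cons a' l'' =>
            unfold compOK at h
            simp only [Bool.and_eq_true] at h
            rcases List.mem_cons.1 hs with rfl | hs
            · exact h.1.1
            · exact ih' h.2 s hs
      have hr' := hrb _ hc' r hr
      obtain ⟨p1, p2, p3⟩ := s12_blocky hP hb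
      obtain ⟨r1, r2, r3⟩ := s12_blocky hP hr'
      have hadj' : adjC (o.1 + p.1, o.2 + p.2) (o.1 + r.1, o.2 + r.2) = true := by
        unfold adjC at hadj ⊢
        simp only [Bool.or_eq_true, Bool.and_eq_true, decide_eq_true_eq] at hadj ⊢
        omega
      have hs := h11 X Y M e _ _ hM p1 r1 p2 p3 r2 r3 hadj'
      have hrs := hb' r hr
      refine ⟨b, fun s hs' => ?_⟩
      rcases List.mem_cons.1 hs' with rfl | hs'
      · cases b with
        | false =>
          simp only [Bool.false_eq_true, if_false] at hrs ⊢
          by_contra hcon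
          push Not at hcon
          nlinarith
        | true =>
          simp only [if_true] at hrs ⊢
          by_contra hcon
          push Not at hcon
          nlinarith
      · exact hb' s hs'

end Pool.Agent.W982.TA
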