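import Pool.Agent.W217.BE.Stm

/-! Transport of certificates between two projective resolutions of one module. -/

set_option autoImplicit false

namespace Pool.Agent.W347.BEINDEP

open Pool.Agent.W217.BE

theorem main : LIFT → HTPY → INDEP := by
  intro hlift hhtpy S κ _ _ χ M _ _ X Y _ _ _ _ _ _ dX εX dY εY hX hY i n hc
  have cX0 : ∀ x, εX (dX 0 x) = 0 := fun x => by
    have : dX 0 x ∈ LinearMap.range (dX 0) := ⟨x, rfl⟩
    rw [hX.2.1] at this
    exact this
  have cY0 : ∀ x, εY (dY 0 x) = 0 := fun x => by
    have : dY 0 x ∈ LinearMap.range (dY 0) := ⟨x, rfl⟩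
    rw [hY.2.1] at this
    exact this
  have cX : ∀ i x, dX i (dX (i + 1) x) = 0 := fun i x => by
    have : dX (i + 1) x ∈ LinearMap.range (dX (i + 1)) := ⟨x, rfl⟩
    rw [hX.2.2 i] at this
    exact this
  have cY : ∀ i x, dY i (dY (i + 1) x) = 0 := fun i x => by
    have : dY (i + 1) x ∈ LinearMap.range (dY (i + 1)) := ⟨x, rfl⟩
    rw [hY.2.2 i] at this
    exact this
  obtain ⟨b, hb0, hb⟩ := hlift S M M X Y dX εX dY εY LinearMap.id cX0 cX hY
  obtain ⟨a, ha0, ha⟩ := hlift S M M Y X dY εY dX εX LinearMap.id cY0 cY hX
  obtain ⟨h, hh0, hh⟩ := hhtpy S M X X dX dX εX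
    (fun i => (a i).comp (b i) - LinearMap.id) cX hX
    (by
      intro x
      simp only [LinearMap.sub_apply, LinearMap.comp_apply, LinearMap.id_apply, map_sub]
      rw [ha0]
      simp only [LinearMap.id_apply]
      rw [hb0]
      simp)
    (by
      intro i x
      simp only [LinearMap.sub_apply, LinearMap.comp_apply, LinearMap.id_apply, map_sub]
      rw [ha, hb])
  obtain ⟨z, l, hz, hl, hld, hlz⟩ := hc
  refine ⟨fun j => b i (z j), fun j => (l j).comp (a i).toAddMonoidHom, ?_, ?_, ?_, ?_⟩
  · intro j
    cases i with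
    | zero => trivial
    | succ k =>
      intro L hL
      show L (dY k (b (k + 1) (z j))) = 0
      rw [hb]
      exact hz j (L.comp (b k).toAddMonoidHom) (fun s x => by
        show L (b k (s • x)) = χ s * L (b k x)
        rw [map_smul]
        exact hL s _)
  · intro j s x
    show l j (a i (s • x)) = χ s * l j (a i x)
    rw [map_smul]
    exact hl j s _
  · intro j x
    show l j (a i (dY i x)) = 0
    rw [← ha]
    exact hld j _
  · intro j k
    show l j (a i (b i (z k))) = _
    cases i with
    | zero =>
      have e : a 0 (b 0 (z k)) = z k + dX 0 (h 0 (z k)) := by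
        rw [← hh0]
        simp
      rw [e, map_add, hld, add_zero]
      exact hlz j k
    | succ m =>
      have e : a (m + 1) (b (m + 1) (z k)) =
          z k + (dX (m + 1) (h (m + 1) (z k)) + h m (dX m (z k))) := by
        rw [← hh]
        simp
      rw [e, map_add, map_add, hld, zero_add, hlz]
      have h0 : l j (h m (dX m (z k))) = 0 :=
        hz k ((l j).comp (h m).toAddMonoidHom) (fun s x => by
          show l j (h m (s • x)) = χ s * l j (h m x)
          rw [map_smul]
          exact hl j s _)
      rw [h0, add_zero]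

end Pool.Agent.W347.BEINDEP
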