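import Pool.Agent.W957.CH.StmB

/-! Project CH (helper957), part GR (helper347): reroutings keep the number of chords. -/

set_option autoImplicit false

namespace Pool.Agent.W347.CHGR

open Finset hiding cons
open Pool.Agent.W957.CH

theorem cons_symm {n i j : ℕ} (h : cons n i j) : cons n j i := by
  unfold cons at h ⊢
  omega

theorem cons_adj {V : Type} {G : SimpleGraph V} {n : ℕ} {c : ℕ → V} (h : CR G n c) {i j : ℕ}
    (hi : i < n) (hj : j < n) (hc : cons n i j) : G.Adj (c i) (c j) := by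
  rcases hc with rfl | rfl | ⟨rfl, rfl⟩ | ⟨rfl, rfl⟩
  · exact h.adj i hj
  · exact (h.adj j hi).symm
  · exact h.clo.symm
  · exact h.clo

theorem t_GR (h1 : S_CH2C) (h2 : S_CH2L) (h3 : S_LC) : S_GR := by
  classical
  intro V inst X n c l Rm E hok hg hr hRm
  obtain ⟨i1, i2⟩ := h1 V X.G n c hg.cr
  obtain ⟨l1, l2⟩ := h2 V X.G l hr.cyc
  set Pc := (range n ×ˢ range n).filter
    (fun p => X.G.Adj (c p.1) (c p.2) ∧ ¬ cons n p.1 p.2) with hPc
  set Pl := (l.toFinset ×ˢ l.toFinset).filter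
    (fun p => X.G.Adj p.1 p.2 ∧ ¬ CA l p.1 p.2) with hPl
  have hq : Pc.card = X.q := by
    have := hg.chq
    unfold ch2 at this
    rw [i1, i2] at this
    omega
  have hch : ch2 X.G l.toFinset = Pl.card := by
    unfold ch2
    rw [l1, l2]
    omega
  have hlA : ∀ x ∈ l, x ∈ X.A := by
    intro x hx
    rcases (hr.mem x).1 hx with ⟨i, hi, -, rfl⟩ | h
    · exact hg.sub i hi
    · exact (hr.EA x h).1
  -- the length of the new cycle
  have hlen : n ≤ 4 * l.length := by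
    have e1 : ((range n \ Rm).image c) ⊆ l.toFinset := by
      intro x hx
      obtain ⟨i, hi, rfl⟩ := mem_image.1 hx
      rw [mem_sdiff, mem_range] at hi
      rw [List.mem_toFinset]
      exact (hr.mem _).2 (Or.inl ⟨i, hi.1, hi.2, rfl⟩)
    have e2 := card_le_card e1
    rw [card_image_of_injOn, l1] at e2
    · have e3 := le_card_sdiff Rm (range n)
      rw [card_range] at e3
      omega
    · intro i hi j hj hij
      simp only [coe_sdiff, Set.mem_diff, mem_coe, mem_range] at hi hj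
      exact hg.cr.inj i j hi.1 hj.1 hij
  have hinj : Set.InjOn (fun p : ℕ × ℕ => (c p.1, c p.2)) (Pc : Set (ℕ × ℕ)) := by
    intro p hp p' hp' h
    rw [mem_coe, hPc, mem_filter, mem_product, mem_range, mem_range] at hp hp'
    simp only [Prod.mk.injEq] at h
    exact Prod.ext (hg.cr.inj _ _ hp.1.1 hp'.1.1 h.1) (hg.cr.inj _ _ hp.1.2 hp'.1.2 h.2)
  have hsub : Pc.image (fun p : ℕ × ℕ => (c p.1, c p.2)) ⊆ Pl := by
    intro x hx
    obtain ⟨⟨i, j⟩, hp, rfl⟩ := mem_image.1 hx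
    rw [hPc, mem_filter, mem_product, mem_range, mem_range] at hp
    obtain ⟨⟨hi, hj⟩, ha, hn⟩ := hp
    simp only at hi hj ha hn
    have hiR : i ∉ Rm := fun h => (hr.fr i h).2 ⟨j, hj, ha, hn⟩
    have hjR : j ∉ Rm := fun h => (hr.fr j h).2 ⟨i, hi, ha.symm, fun h => hn (cons_symm h)⟩
    rw [hPl, mem_filter, mem_product, List.mem_toFinset, List.mem_toFinset]
    exact ⟨⟨(hr.mem _).2 (Or.inl ⟨i, hi, hiR, rfl⟩), (hr.mem _).2 (Or.inl ⟨j, hj, hjR, rfl⟩)⟩, ha,
      fun h => hn (hr.con i j hi hj h)⟩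
  have hmax : Pl.card ≤ X.q := by
    rw [← hch]
    apply hok.max l hr.cyc hlA
    have := hg.len
    omega
  have heq : Pc.image (fun p : ℕ × ℕ => (c p.1, c p.2)) = Pl := by
    apply eq_of_subset_of_card_le hsub
    rw [card_image_of_injOn hinj, hq]
    exact hmax
  have hPlq : Pl.card = X.q := by
    rw [← heq, card_image_of_injOn hinj, hq]
  have hkey : ∀ x y, x ∈ l → y ∈ l → X.G.Adj x y → ¬ CA l x y →
      ∃ i j, i < n ∧ j < n ∧ ¬ cons n i j ∧ c i = x ∧ c j = y := by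
    intro x y hx hy ha hn
    have hm : (x, y) ∈ Pl := by
      rw [hPl, mem_filter, mem_product, List.mem_toFinset, List.mem_toFinset]
      exact ⟨⟨hx, hy⟩, ha, hn⟩
    rw [← heq] at hm
    obtain ⟨⟨i, j⟩, hp, hp2⟩ := mem_image.1 hm
    rw [hPc, mem_filter, mem_product, mem_range, mem_range] at hp
    simp only [Prod.mk.injEq] at hp2
    exact ⟨i, j, hp.1.1, hp.1.2, hp.2.2, hp2.1, hp2.2⟩
  refine ⟨by rw [hch, hPlq], ?_, ?_, ?_⟩
  · intro x y hx hy hxE ha
    by_contra hn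
    obtain ⟨i, j, hi, -, -, rfl, -⟩ := hkey x y hx hy ha hn
    apply (hr.EA _ hxE).2
    unfold img
    exact mem_image.2 ⟨i, mem_range.2 hi, rfl⟩
  · intro i j hi hj hiR hjR hc
    by_contra hn
    obtain ⟨i', j', hi', hj', hn', e1, e2⟩ := hkey (c i) (c j)
      ((hr.mem _).2 (Or.inl ⟨i, hi, hiR, rfl⟩)) ((hr.mem _).2 (Or.inl ⟨j, hj, hjR, rfl⟩))
      (cons_adj hg.cr hi hj hc) hn
    have f1 := hg.cr.inj _ _ hi' hi e1
    have f2 := hg.cr.inj _ _ hj' hj e2
    subst f1 f2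
    exact hn' hc
  · intro hL
    obtain ⟨c', g1, g2, g3, -⟩ := h3 V X.G l hr.cyc
    refine ⟨l.length, c', ⟨g1, ?_, ?_, ?_⟩, g2⟩
    · intro i hi
      rw [← g3 i hi]
      exact hlA _ (List.getElem_mem hi)
    · rw [g2, hch, hPlq]
    · omega

end Pool.Agent.W347.CHGR
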