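import Pool.Agent.W982.TA.Stm

/-!
# Project TA (helper982), part G9 (helper347): the triangle on the left of an edge
-/

set_option autoImplicit false

namespace Pool.Agent.W982.TA

namespace G9aux

/-- real version of `dt` -/
def dR (p q w : ℝ × ℝ) : ℝ := (q.1 - p.1) * (w.2 - p.2) - (q.2 - p.2) * (w.1 - p.1)

theorem dR_emb (p q r : Pt) : dR (emb p) (emb q) (emb r) = ((dt p q r : ℤ) : ℝ) := by
  unfold dR emb dt
  push_cast
  ring

theorem sub_tri {a b c s r : Pt} (hs0 : 0 < dt a b s) (hc : 0 < dt a b c) (hs : InTri a b c s)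
    (hr : InTri a b s r) : InTri a b c r := by
  obtain ⟨s1, s2, s3⟩ := hs
  obtain ⟨r1, r2, r3⟩ := hr
  have e1 : dt a b s * dt b c r = dt b s r * dt a b c + dt a b r * dt b c s := by
    unfold dt; ring
  have e2 : dt a b s * dt c a r = dt s a r * dt a b c + dt a b r * dt c a s := by
    unfold dt; ring
  refine ⟨r1, ?_, ?_⟩
  · have : 0 ≤ dt a b s * dt b c r := by rw [e1]; positivity
    exact nonneg_of_mul_nonneg_right this hs0
  · have : 0 ≤ dt a b s * dt c a r := by rw [e2]; positivity
    exact nonneg_of_mul_nonneg_right this hs0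

theorem not_tri {a b c s : Pt} (hc : 0 < dt a b c) (hs : InTri a b c s) (hne : s ≠ c) :
    ¬ InTri a b s c := by
  rintro ⟨-, r2, r3⟩
  obtain ⟨-, s2, s3⟩ := hs
  have e1 : dt b s c = - dt b c s := by unfold dt; ring
  have e2 : dt s a c = - dt c a s := by unfold dt; ring
  have h1 : dt b c s = 0 := by omega
  have h2 : dt c a s = 0 := by omega
  apply hne
  have k1 : (s.1 - c.1) * dt a b c = 0 := by
    have : (s.1 - c.1) * dt a b c = (a.1 - c.1) * dt b c s + (b.1 - c.1) * dt c a s := by
      unfold dt; ring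
    rw [this, h1, h2]; ring
  have k2 : (s.2 - c.2) * dt a b c = 0 := by
    have : (s.2 - c.2) * dt a b c = (a.2 - c.2) * dt b c s + (b.2 - c.2) * dt c a s := by
      unfold dt; ring
    rw [this, h1, h2]; ring
  have l1 := (mul_eq_zero.1 k1).resolve_right hc.ne'
  have l2 := (mul_eq_zero.1 k2).resolve_right hc.ne'
  exact Prod.ext (by omega) (by omega)

/-- a point `w` on the line `p c` with nonnegative coefficients -/
theorem on_side {p c : Pt} {w : ℝ × ℝ} {γ δ : ℝ} (hγ : 0 ≤ γ) (hδ : 0 < δ) (h1 : γ + δ = 1)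
    (hw : w = γ • emb p + δ • emb c) : w ∈ oseg p c ∨ w = emb c := by
  rcases eq_or_lt_of_le hγ with h | h
  · right
    rw [← h] at h1 hw
    rw [zero_add] at h1
    rw [hw, h1, zero_smul, one_smul, zero_add]
  · left
    exact ⟨γ, δ, h, hδ, h1, hw.symm⟩

theorem leave {a b c q : Pt} {z : ℝ × ℝ} (hc : 0 < dt a b c) (hz : z ∈ oseg a b)
    (hq : 0 < dt a b q) (hn : ¬ InTri a b c q) :
    ∃ w ∈ openSegment ℝ z (emb q), w ∈ oseg b c ∨ w ∈ oseg a c ∨ w = emb c := by
  obtain ⟨α, β, hα, hβ, hαβ, rfl⟩ := hz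
  have hD : (0 : ℝ) < ((dt a b c : ℤ) : ℝ) := by exact_mod_cast hc
  have hF0 : (0 : ℝ) < ((dt a b q : ℤ) : ℝ) := by exact_mod_cast hq
  rw [← dR_emb] at hD hF0
  have hn' : dR (emb b) (emb c) (emb q) < 0 ∨ dR (emb c) (emb a) (emb q) < 0 := by
    rw [dR_emb, dR_emb]
    by_contra hcon
    push Not at hcon
    apply hn
    exact ⟨hq.le, by exact_mod_cast hcon.1, by exact_mod_cast hcon.2⟩
  set A := emb a
  set B := emb b
  set C := emb c
  set Q := emb q
  set D := dR A B C with hDd
  set F1 := dR B C Q with hF1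
  set F2 := dR C A Q with hF2
  have hcases : (F1 < 0 ∧ β * F1 ≤ α * F2) ∨ (F2 < 0 ∧ α * F2 ≤ β * F1) := by
    rcases le_total (β * F1) (α * F2) with h | h
    · rcases hn' with h1 | h1
      · exact Or.inl ⟨h1, h⟩
      · left
        refine ⟨?_, h⟩
        by_contra h2
        push Not at h2
        nlinarith [mul_nonneg hβ.le h2, mul_pos hα (neg_pos.2 h1)]
    · rcases hn' with h1 | h1
      · right
        refine ⟨?_, h⟩
        by_contra h2
        push Not at h2
        nlinarith [mul_nonneg hα.le h2, mul_pos hβ (neg_pos.2 h1)]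
      · exact Or.inr ⟨h1, h⟩
  rcases hcases with ⟨h1, h2⟩ | ⟨h1, h2⟩
  · -- through `b c`
    have hden : 0 < α * D - F1 := by nlinarith [mul_pos hα hD]
    have hs1 : 0 < α * D / (α * D - F1) := by positivity
    have hs0 : 0 < -F1 / (α * D - F1) := div_pos (by linarith) hden
    have hs2 : -F1 / (α * D - F1) + α * D / (α * D - F1) = 1 := by
      field_simp; ring
    refine ⟨(-F1 / (α * D - F1)) • (α • A + β • B) + (α * D / (α * D - F1)) • Q,
      ⟨_, _, hs0, hs1, hs2, rfl⟩, ?_⟩
    have hw : (-F1 / (α * D - F1)) • (α • A + β • B) + (α * D / (α * D - F1)) • Q =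
        ((α * F2 - β * F1) / (α * D - F1)) • B + (α * dR A B Q / (α * D - F1)) • C := by
      ext
      · simp only [Prod.fst_add, Prod.smul_fst, smul_eq_mul]
        rw [hF1, hF2, hDd] at *
        field_simp
        unfold dR
        ring
      · simp only [Prod.snd_add, Prod.smul_snd, smul_eq_mul]
        rw [hF1, hF2, hDd] at *
        field_simp
        unfold dR
        ring
    rcases on_side (p := b) (c := c) (γ := (α * F2 - β * F1) / (α * D - F1))
      (δ := α * dR A B Q / (α * D - F1)) (div_nonneg (by linarith) hden.le)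
      (div_pos (mul_pos hα hF0) hden) (by
        rw [← add_div, div_eq_one_iff_eq hden.ne']
        have hsum : dR A B Q + F1 + F2 = D := by
          rw [hF1, hF2, hDd]; unfold dR; ring
        linear_combination α * hsum - F1 * hαβ) hw with h | h
    · exact Or.inl h
    · exact Or.inr (Or.inr h)
  · -- through `a c`
    have hden : 0 < β * D - F2 := by nlinarith [mul_pos hβ hD]
    have hs1 : 0 < β * D / (β * D - F2) := by positivity
    have hs0 : 0 < -F2 / (β * D - F2) := div_pos (by linarith) hden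
    have hs2 : -F2 / (β * D - F2) + β * D / (β * D - F2) = 1 := by
      field_simp; ring
    refine ⟨(-F2 / (β * D - F2)) • (α • A + β • B) + (β * D / (β * D - F2)) • Q,
      ⟨_, _, hs0, hs1, hs2, rfl⟩, ?_⟩
    have hw : (-F2 / (β * D - F2)) • (α • A + β • B) + (β * D / (β * D - F2)) • Q =
        ((β * F1 - α * F2) / (β * D - F2)) • A + (β * dR A B Q / (β * D - F2)) • C := by
      ext
      · simp only [Prod.fst_add, Prod.smul_fst, smul_eq_mul]
        rw [hF1, hF2, hDd] at *
        field_simp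
        unfold dR
        ring
      · simp only [Prod.snd_add, Prod.smul_snd, smul_eq_mul]
        rw [hF1, hF2, hDd] at *
        field_simp
        unfold dR
        ring
    rcases on_side (p := a) (c := c) (γ := (β * F1 - α * F2) / (β * D - F2))
      (δ := β * dR A B Q / (β * D - F2)) (div_nonneg (by linarith) hden.le)
      (div_pos (mul_pos hβ hF0) hden) (by
        rw [← add_div, div_eq_one_iff_eq hden.ne']
        have hsum : dR A B Q + F1 + F2 = D := by
          rw [hF1, hF2, hDd]; unfold dR; ring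
        linear_combination β * hsum - F2 * hαβ) hw with h | h
    · exact Or.inr (Or.inl h)
    · exact Or.inr (Or.inr h)

end G9aux

open G9aux in
theorem g9 (h1 : TaskG1) (h6 : TaskG6) (h7 : TaskG7) (h8 : TaskG8) : TaskG9 := by
  classical
  intro S T hT a b hab hex
  obtain ⟨z0, hz0⟩ : (oseg a b).Nonempty := by
    refine ⟨(1 / 2 : ℝ) • emb a + (1 / 2 : ℝ) • emb b, 1 / 2, 1 / 2, by norm_num, by norm_num,
      by norm_num, rfl⟩
  set K := S.filter fun c => 0 < dt a b c ∧ Sees S T z0 c with hK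
  have hKn : K.Nonempty := by
    obtain ⟨c, hc, h⟩ := h6 S T hT a b hab z0 hz0 hex
    exact ⟨c, Finset.mem_filter.2 ⟨hc, h⟩⟩
  obtain ⟨c, hcK, hmin⟩ := K.exists_min_image (fun c => (S.filter fun r => InTri a b c r).card) hKn
  obtain ⟨hcS, hc0, hcs⟩ := Finset.mem_filter.1 hcK
  have hempty : ∀ r ∈ S, InTri a b c r → r = a ∨ r = b ∨ r = c := by
    by_contra hcon
    push Not at hcon
    obtain ⟨r, hr, hr1, hr2, hr3, hr4⟩ := hcon
    obtain ⟨s, hs, hs1, hs2, hs3, hs4⟩ := h7 S T hT a b hab z0 hz0 c hcS hc0 hcs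
      ⟨r, hr, hr1, hr2, hr3, hr4⟩
    have hle := hmin s (Finset.mem_filter.2 ⟨hs, hs3, hs4⟩)
    have hlt : (S.filter fun r => InTri a b s r).card < (S.filter fun r => InTri a b c r).card := by
      apply Finset.card_lt_card
      rw [Finset.ssubset_iff_of_subset]
      · refine ⟨c, Finset.mem_filter.2 ⟨hcS, hc0.le, ?_, ?_⟩, fun h => ?_⟩
        · have : dt b c c = 0 := by unfold dt; ring
          rw [this]
        · have : dt c a c = 0 := by unfold dt; ring
          rw [this]
        · exact not_tri hc0 hs1 hs2 (Finset.mem_filter.1 h).2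
      · intro r hr
        obtain ⟨hr1, hr2⟩ := Finset.mem_filter.1 hr
        exact Finset.mem_filter.2 ⟨hr1, sub_tri hs3 hc0 hs1 hr2⟩
    omega
  obtain ⟨t1, t2⟩ := h8 S T hT a b hab z0 hz0 c hcS hc0 hcs hempty
  refine ⟨c, hc0, ⟨hab, t2, t1, hc0.ne', fun r hr hr2 => hempty r hr ((h1 a b c r hc0).1 hr2)⟩, ?_⟩
  intro z hz q hq hqS hd1 hd2 hd3
  by_contra hn
  obtain ⟨w, hw, h | h | h⟩ := leave hc0 hz hq hn
  · exact Set.disjoint_left.1 (hd1 b c t2) hw h
  · exact Set.disjoint_left.1 (hd1 a c t1) hw h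
  · rw [h] at hw
    exact hd3 c hcS hw

end Pool.Agent.W982.TA
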